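import Mathlib
import Pool.Agent.HLead.CB.Defs

/-!
# TASK BLK2 (MP_387a72_lc): isomorphic sums of blocks over `List ℚ` have conjugate labels
-/

set_option autoImplicit false

namespace Pool.Agent.H227.CB
open Pool.Agent.HLead.CB

/-- strict order of the sum of the blocks -/
def ltOm (m : List ℚ → ℕ) (p q : List ℚ × ℕ) : Prop :=
  p.1 < q.1 ∨ (p.1 = q.1 ∧ g (m p.1) p.2 < g (m p.1) q.2)

theorem ltOm_iff (m : List ℚ → ℕ) (p q : List ℚ × ℕ) : ltOm m p q ↔ ¬ leOm m q p := by
  unfold ltOm leOm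
  constructor
  · rintro (h | ⟨h, h'⟩) (h2 | ⟨h2, h3⟩)
    · exact lt_asymm h h2
    · rw [h2] at h; exact lt_irrefl _ h
    · rw [h] at h2; exact lt_irrefl _ h2
    · rw [← h] at h3; exact absurd h' (not_lt.2 h3)
  · intro h
    rcases lt_trichotomy p.1 q.1 with h1 | h1 | h1
    · exact Or.inl h1
    · right
      refine ⟨h1, ?_⟩
      by_contra h2
      exact h (Or.inr ⟨h1.symm, by rw [← h1]; exact not_lt.1 h2⟩)
    · exact absurd (Or.inl h1) h

/-- successor pairs -/
def Suc (m : List ℚ → ℕ) (p q : List ℚ × ℕ) : Prop :=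
  ltOm m p q ∧ ∀ r, ltOm m p r → ¬ ltOm m r q

theorem g_lt {k i : ℕ} (h : i < k + 2) : g k i = (i : ℚ) - (k + 2) := by
  unfold g; rw [if_pos h]

theorem g_ge {k i : ℕ} (h : ¬ i < k + 2) : g k i = ((ePos (i - (k + 2)) : {q : ℚ // 0 < q}) : ℚ) := by
  unfold g; rw [if_neg h]

theorem g_pos {k i : ℕ} (h : ¬ i < k + 2) : 0 < g k i := by
  rw [g_ge h]; exact (ePos (i - (k + 2))).2

theorem g_neg {k i : ℕ} (h : i < k + 2) : g k i < 0 := by
  rw [g_lt h]
  have : (i : ℚ) < (k : ℚ) + 2 := by exact_mod_cast h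
  linarith

theorem exists_g (k : ℕ) {q : ℚ} (hq : 0 < q) : ∃ i, g k i = q := by
  obtain ⟨n, hn⟩ := ePos.surjective ⟨q, hq⟩
  refine ⟨n + (k + 2), ?_⟩
  rw [g_ge (by omega)]
  rw [Nat.add_sub_cancel, hn]

theorem suc_iff (m : List ℚ → ℕ) (p q : List ℚ × ℕ) :
    Suc m p q ↔ p.1 = q.1 ∧ q.2 = p.2 + 1 ∧ p.2 + 1 < m p.1 + 2 := by
  obtain ⟨σ, i⟩ := p
  obtain ⟨τ, j⟩ := q
  constructor
  · rintro ⟨h, hno⟩
    rcases h with h | ⟨h, h'⟩
    · exfalso
      simp only at h
      obtain ⟨i', hi'⟩ := exists_g (m σ) (q := max (g (m σ) i) 0 + 1) (by positivity)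
      refine hno (σ, i') (Or.inr ⟨rfl, ?_⟩) (Or.inl h)
      simp only [hi']
      have := le_max_left (g (m σ) i) 0
      linarith
    · simp only at h h'
      subst h
      have hj : j < m σ + 2 := by
        by_contra hj
        have hp := g_pos hj
        obtain ⟨r, hr⟩ := exists_g (m σ) (q := (max (g (m σ) i) 0 + g (m σ) j) / 2) (by positivity)
        have h1 := le_max_left (g (m σ) i) 0
        have h2 : max (g (m σ) i) 0 < g (m σ) j := max_lt h' hp
        refine hno (σ, r) (Or.inr ⟨rfl, ?_⟩) (Or.inr ⟨rfl, ?_⟩)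
        · simp only [hr]; linarith
        · simp only [hr]; linarith
      have hi : i < m σ + 2 := by
        by_contra hi
        have := g_pos hi
        have := g_neg hj
        linarith
      have hij : i < j := by
        rw [g_lt hi, g_lt hj] at h'
        have : (i : ℚ) < j := by linarith
        exact_mod_cast this
      have hj' : j = i + 1 := by
        by_contra hne
        have hlt : i + 1 < j := by omega
        have hi1 : i + 1 < m σ + 2 := by omega
        refine hno (σ, i + 1) (Or.inr ⟨rfl, ?_⟩) (Or.inr ⟨rfl, ?_⟩)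
        · simp only
          rw [g_lt hi, g_lt hi1]; push_cast; linarith
        · simp only
          rw [g_lt hj, g_lt hi1]
          have : ((i + 1 : ℕ) : ℚ) < j := by exact_mod_cast hlt
          linarith
      exact ⟨rfl, hj', by simp only; omega⟩
  · rintro ⟨h1, h2, h3⟩
    simp only at h1 h2 h3
    subst h1
    subst h2
    have hi : i < m σ + 2 := by omega
    refine ⟨Or.inr ⟨rfl, ?_⟩, ?_⟩
    · simp only
      rw [g_lt hi, g_lt h3]; push_cast; linarith
    · rintro ⟨ρ, r⟩ ha hb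
      unfold ltOm at ha hb
      simp only at ha hb
      have hρ : σ = ρ := by
        rcases ha with ha | ⟨ha, _⟩
        · rcases hb with hb | ⟨hb, _⟩
          · exact absurd ha (lt_asymm hb)
          · exact hb.symm
        · exact ha
      subst hρ
      have ha' : g (m σ) i < g (m σ) r := by
        rcases ha with ha | ⟨_, ha⟩
        · exact absurd ha (lt_irrefl _)
        · exact ha
      have hb' : g (m σ) r < g (m σ) (i + 1) := by
        rcases hb with hb | ⟨_, hb⟩
        · exact absurd hb (lt_irrefl _)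
        · exact hb
      by_cases hr : r < m σ + 2
      · rw [g_lt hi, g_lt hr] at ha'
        rw [g_lt h3, g_lt hr] at hb'
        have h4 : (i : ℚ) < r := by linarith
        have h5 : (r : ℚ) < ((i + 1 : ℕ) : ℚ) := by linarith
        have h4' : i < r := by exact_mod_cast h4
        have h5' : r < i + 1 := by exact_mod_cast h5
        omega
      · have := g_pos hr
        have := g_neg h3
        linarith

theorem first_iff (m : List ℚ → ℕ) (p : List ℚ × ℕ) :
    ((∃ q, Suc m p q) ∧ ¬ ∃ q, Suc m q p) ↔ p.2 = 0 := by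
  obtain ⟨σ, i⟩ := p
  constructor
  · rintro ⟨⟨q, hq⟩, hno⟩
    rw [suc_iff] at hq
    simp only at hq ⊢
    by_contra hi
    obtain ⟨i', rfl⟩ := Nat.exists_eq_succ_of_ne_zero hi
    exact hno ⟨(σ, i'), (suc_iff m _ _).2 ⟨rfl, rfl, by simp only; omega⟩⟩
  · intro h
    simp only at h
    subst h
    refine ⟨⟨(σ, 1), (suc_iff m _ _).2 ⟨rfl, rfl, by simp only; omega⟩⟩, ?_⟩
    rintro ⟨q, hq⟩
    rw [suc_iff] at hq
    simp only at hq
    omega

theorem suc_map {m m' : List ℚ → ℕ} {F : List ℚ × ℕ ≃ List ℚ × ℕ}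
    (hF : ∀ p q, leOm m p q ↔ leOm m' (F p) (F q)) (p q : List ℚ × ℕ) :
    Suc m p q ↔ Suc m' (F p) (F q) := by
  have hlt : ∀ p q, ltOm m p q ↔ ltOm m' (F p) (F q) := by
    intro p q
    rw [ltOm_iff, ltOm_iff, hF]
  unfold Suc
  rw [hlt p q]
  refine and_congr_right fun _ => ?_
  constructor
  · intro h r h1 h2
    have := h (F.symm r)
    rw [hlt, hlt, F.apply_symm_apply] at this
    exact this h1 h2
  · intro h r h1 h2
    exact h (F r) ((hlt _ _).1 h1) ((hlt _ _).1 h2)

theorem map_zero {m m' : List ℚ → ℕ} {F : List ℚ × ℕ ≃ List ℚ × ℕ}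
    (hF : ∀ p q, leOm m p q ↔ leOm m' (F p) (F q)) (σ : List ℚ) :
    F (σ, 0) = ((F (σ, 0)).1, 0) := by
  have h1 := (first_iff m (σ, 0)).2 rfl
  have h2 : (F (σ, 0)).2 = 0 := by
    rw [← first_iff m']
    constructor
    · obtain ⟨q, hq⟩ := h1.1
      exact ⟨F q, (suc_map hF _ _).1 hq⟩
    · rintro ⟨q, hq⟩
      apply h1.2
      refine ⟨F.symm q, (suc_map hF _ _).2 ?_⟩
      rw [F.apply_symm_apply]
      exact hq
  exact Prod.ext rfl h2

theorem label_le {m m' : List ℚ → ℕ} {F : List ℚ × ℕ ≃ List ℚ × ℕ}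
    (hF : ∀ p q, leOm m p q ↔ leOm m' (F p) (F q)) (σ : List ℚ) :
    m σ ≤ m' (F (σ, 0)).1 := by
  have key : ∀ i, i < m σ + 2 → F (σ, i) = ((F (σ, 0)).1, i) ∧ i < m' (F (σ, 0)).1 + 2 := by
    intro i
    induction i with
    | zero =>
      intro _
      exact ⟨map_zero hF σ, by omega⟩
    | succ i ih =>
      intro hi
      obtain ⟨h1, h2⟩ := ih (by omega)
      have h3 : Suc m (σ, i) (σ, i + 1) := (suc_iff m _ _).2 ⟨rfl, rfl, hi⟩
      rw [suc_map hF, h1, suc_iff] at h3
      obtain ⟨h4, h5, h6⟩ := h3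
      simp only at h4 h5 h6
      exact ⟨Prod.ext h4.symm h5, h6⟩
  have := (key (m σ + 1) (by omega)).2
  omega

theorem t : S_BLK2 := by
  intro m m' F hF
  have hF' : ∀ p q, leOm m' p q ↔ leOm m (F.symm p) (F.symm q) := by
    intro p q
    rw [hF, F.apply_symm_apply, F.apply_symm_apply]
  let φ : List ℚ ≃ List ℚ :=
    { toFun := fun σ => (F (σ, 0)).1
      invFun := fun τ => (F.symm (τ, 0)).1
      left_inv := by
        intro σ
        simp only
        rw [← map_zero hF σ, F.symm_apply_apply]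
      right_inv := by
        intro τ
        simp only
        rw [← map_zero hF' τ, F.apply_symm_apply] }
  have hle : ∀ (m : List ℚ → ℕ) (σ τ : List ℚ), leOm m (σ, 0) (τ, 0) ↔ σ ≤ τ := by
    intro m σ τ
    unfold leOm
    simp only
    constructor
    · rintro (h | ⟨h, _⟩)
      · exact le_of_lt h
      · exact le_of_eq h
    · intro h
      rcases lt_or_eq_of_le h with h | h
      · exact Or.inl h
      · exact Or.inr ⟨h, le_refl _⟩
  refine ⟨{ toEquiv := φ, map_rel_iff' := ?_ }, ?_⟩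
  · intro σ τ
    show (F (σ, 0)).1 ≤ (F (τ, 0)).1 ↔ σ ≤ τ
    rw [← hle m', ← map_zero hF σ, ← map_zero hF τ, ← hF, hle]
  · intro σ
    show m' (F (σ, 0)).1 = m σ
    apply le_antisymm
    · have h := label_le hF' (F (σ, 0)).1
      rw [← map_zero hF σ, F.symm_apply_apply] at h
      exact h
    · exact label_le hF σ

end Pool.Agent.H227.CB
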