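import Pool.Agent.H676.ED.Stm

set_option autoImplicit false

namespace Pool.Agent.H227.ED

open Real Set

/-- the gap function -/
noncomputable def phi (p : ℝ) : ℝ := binEntropy p - 4 * log 2 * (p * (1 - p))

/-- its derivative -/
noncomputable def phi1 (p : ℝ) : ℝ := log (1 - p) - log p - 4 * log 2 * (1 - 2 * p)

/-- its second derivative -/
noncomputable def phi2 (p : ℝ) : ℝ := 8 * log 2 - 1 / (p * (1 - p))

theorem phi_d1 {p : ℝ} (h0 : 0 < p) (h1 : p < 1) : HasDerivAt phi (phi1 p) p := by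
  have h2 := hasDerivAt_binEntropy h0.ne' h1.ne
  have h3 : HasDerivAt (fun p : ℝ => p * (1 - p)) (1 * (1 - p) + p * (-1)) p := by
    exact (hasDerivAt_id p).mul ((hasDerivAt_id p).const_sub 1)
  have h4 := h2.sub (h3.const_mul (4 * log 2))
  refine h4.congr_deriv ?_
  unfold phi1
  ring

theorem phi_d2 {p : ℝ} (h0 : 0 < p) (h1 : p < 1) : HasDerivAt phi1 (phi2 p) p := by
  have h2 : HasDerivAt (fun p : ℝ => 1 - p) (-1) p := (hasDerivAt_id p).const_sub 1
  have h3 : HasDerivAt (fun p : ℝ => log (1 - p)) (-1 / (1 - p)) p :=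
    h2.log (sub_pos.mpr h1).ne'
  have h4 : HasDerivAt (fun p : ℝ => log p) (p⁻¹) p := hasDerivAt_log h0.ne'
  have h5 : HasDerivAt (fun p : ℝ => 1 - 2 * p) (-(2 * 1)) p :=
    ((hasDerivAt_id p).const_mul 2).const_sub 1
  have h6 := (h3.sub h4).sub (h5.const_mul (4 * log 2))
  refine h6.congr_deriv ?_
  unfold phi2
  have h7 : (1 : ℝ) - p ≠ 0 := (sub_pos.mpr h1).ne'
  have h8 : p ≠ 0 := h0.ne'
  field_simp
  ring

theorem phi_cont : Continuous phi := by
  unfold phi
  exact binEntropy_continuous.sub (by fun_prop)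

theorem exists_p0 : ∃ p0 : ℝ, 0 < p0 ∧ p0 < 1 / 2 ∧ p0 * (1 - p0) * (8 * log 2) = 1 := by
  have hL : (1 / 2 : ℝ) < log 2 := by
    have := log_two_gt_d9
    linarith
  have hd : 0 < 1 - 1 / (2 * log 2) := by
    rw [sub_pos, div_lt_one (by linarith)]
    linarith
  have hd1 : 1 - 1 / (2 * log 2) < 1 := by
    have : 0 < 1 / (2 * log 2) := by positivity
    linarith
  obtain ⟨d, hd2⟩ : ∃ d, d = sqrt (1 - 1 / (2 * log 2)) := ⟨_, rfl⟩
  have hd3 : d ^ 2 = 1 - 1 / (2 * log 2) := by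
    rw [hd2, sq_sqrt hd.le]
  have hd4 : 0 < d := by rw [hd2]; exact sqrt_pos.mpr hd
  have hd5 : d < 1 := by nlinarith
  refine ⟨(1 - d) / 2, by linarith, by linarith, ?_⟩
  have h1 : (1 - d) / 2 * (1 - (1 - d) / 2) = (1 - d ^ 2) / 4 := by ring
  rw [h1, hd3]
  have h2 : log 2 ≠ 0 := by linarith
  field_simp
  ring

theorem phi_nonneg_half {p : ℝ} (h0 : 0 ≤ p) (h1 : p ≤ 1 / 2) : 0 ≤ phi p := by
  obtain ⟨p0, hp0, hp1, hp2⟩ := exists_p0
  have hL : 0 < log 2 := log_pos (by norm_num)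
  have hz : phi 0 = 0 := by
    unfold phi
    rw [binEntropy_zero]
    ring
  have hh : phi (1 / 2) = 0 := by
    unfold phi
    rw [one_div, binEntropy_two_inv]
    ring
  -- convexity in the middle
  have hconv : ConvexOn ℝ (Icc p0 (1 - p0)) phi := by
    refine convexOn_of_hasDerivWithinAt2_nonneg (f' := phi1) (f'' := phi2) (convex_Icc _ _)
      phi_cont.continuousOn ?_ ?_ ?_
    · intro x hx
      rw [interior_Icc] at hx
      exact (phi_d1 (by linarith [hx.1]) (by linarith [hx.2])).hasDerivWithinAt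
    · intro x hx
      rw [interior_Icc] at hx
      exact (phi_d2 (by linarith [hx.1]) (by linarith [hx.2])).hasDerivWithinAt
    · intro x hx
      rw [interior_Icc] at hx
      obtain ⟨hx1, hx2⟩ := hx
      have h3 : 0 < x * (1 - x) := mul_pos (by linarith) (by linarith)
      unfold phi2
      rw [sub_nonneg, div_le_iff₀ h3]
      have h4 : p0 * (1 - p0) ≤ x * (1 - x) := by nlinarith
      nlinarith
  have hconc : ConcaveOn ℝ (Icc 0 p0) phi := by
    refine concaveOn_of_hasDerivWithinAt2_nonpos (f' := phi1) (f'' := phi2) (convex_Icc _ _)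
      phi_cont.continuousOn ?_ ?_ ?_
    · intro x hx
      rw [interior_Icc] at hx
      exact (phi_d1 (by linarith [hx.1]) (by linarith [hx.2])).hasDerivWithinAt
    · intro x hx
      rw [interior_Icc] at hx
      exact (phi_d2 (by linarith [hx.1]) (by linarith [hx.2])).hasDerivWithinAt
    · intro x hx
      rw [interior_Icc] at hx
      obtain ⟨hx1, hx2⟩ := hx
      have h3 : 0 < x * (1 - x) := mul_pos (by linarith) (by linarith)
      unfold phi2
      rw [sub_nonpos, le_div_iff₀ h3]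
      have h4 : x * (1 - x) ≤ p0 * (1 - p0) := by nlinarith
      nlinarith
  have hsym : ∀ q : ℝ, phi (1 - q) = phi q := by
    intro q
    unfold phi
    rw [binEntropy_one_sub]
    ring
  have hmid : ∀ q : ℝ, p0 ≤ q → q ≤ 1 / 2 → 0 ≤ phi q := by
    intro q hq1 hq2
    have h3 : phi (1 / 2 * q + 1 / 2 * (1 - q)) ≤ 1 / 2 * phi q + 1 / 2 * phi (1 - q) :=
      hconv.2 (⟨hq1, by linarith⟩ : q ∈ Icc p0 (1 - p0))
        (⟨by linarith, by linarith⟩ : 1 - q ∈ Icc p0 (1 - p0))
        (by norm_num) (by norm_num) (by norm_num)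
    rw [hsym] at h3
    have h4 : (1 / 2 : ℝ) * q + 1 / 2 * (1 - q) = 1 / 2 := by ring
    rw [h4, hh] at h3
    linarith
  rcases le_or_gt p0 p with h2 | h2
  · exact hmid p h2 h1
  · have h3 := hmid p0 le_rfl hp1.le
    have h4 : (1 - p / p0) * phi 0 + p / p0 * phi p0 ≤ phi ((1 - p / p0) * 0 + p / p0 * p0) :=
      hconc.2 (⟨le_rfl, hp0.le⟩ : (0 : ℝ) ∈ Icc 0 p0) (⟨hp0.le, le_rfl⟩ : p0 ∈ Icc 0 p0)
        (by rw [sub_nonneg, div_le_one hp0]; exact h2.le) (by positivity) (by ring)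
    have h5 : (1 - p / p0) * 0 + p / p0 * p0 = p := by
      rw [mul_zero, zero_add, div_mul_cancel₀ _ hp0.ne']
    rw [h5, hz] at h4
    have h6 : 0 ≤ p / p0 := by positivity
    nlinarith

theorem phi_nonneg {p : ℝ} (h0 : 0 ≤ p) (h1 : p ≤ 1) : 0 ≤ phi p := by
  rcases le_or_gt p (1 / 2) with h2 | h2
  · exact phi_nonneg_half h0 h2
  · have h3 := phi_nonneg_half (p := 1 - p) (by linarith) (by linarith)
    have h4 : phi (1 - p) = phi p := by
      unfold phi
      rw [binEntropy_one_sub]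
      ring
    rwa [h4] at h3

theorem t_ENT : Pool.Agent.H676.ED.S_ENT := by
  intro a b
  unfold Pool.Agent.H676.ED.ent
  rcases Nat.eq_zero_or_pos a with ha | ha
  · subst ha
    simp
  rcases Nat.eq_zero_or_pos b with hb | hb
  · subst hb
    simp
  have ha' : (0 : ℝ) < a := by exact_mod_cast ha
  have hb' : (0 : ℝ) < b := by exact_mod_cast hb
  have hs : (0 : ℝ) < a + b := by linarith
  have h1 := phi_nonneg (p := (a : ℝ) / (a + b)) (by positivity) (by
    rw [div_le_one hs]; linarith)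
  unfold phi at h1
  have h2 : 1 - (a : ℝ) / (a + b) = b / (a + b) := by
    field_simp
    ring
  rw [binEntropy, h2, inv_div, inv_div, log_div hs.ne' ha'.ne', log_div hs.ne' hb'.ne'] at h1
  have h3 := mul_nonneg (mul_pos hs hs).le h1
  have h4 : ((a : ℝ) + b) * (a + b) * (a / (a + b) * (log (a + b) - log a) +
      b / (a + b) * (log (a + b) - log b) - 4 * log 2 * (a / (a + b) * (b / (a + b)))) =
      (a + b) * ((a + b) * log (a + b) - a * log a - b * log b) - 4 * log 2 * a * b := by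
    field_simp
    ring
  rw [h4] at h3
  linarith

end Pool.Agent.H227.ED
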